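import Pool.Agent.MP_8d06cc_nt.AB75.Null
import Pool.Agent.MP_8d06cc_nt.AB.Spec

/-! The area inequality. -/

set_option autoImplicit false

namespace Pool.Agent.MP_8d06cc_nt.AB75

open MeasureTheory Set Filter Topology AB
open scoped ENNReal

noncomputable section

/-- the product of spherical area densities -/
def om {d : ℕ} (w : Fin d → ℂ) : ℝ := ∏ k, ((1 + ‖w k‖ ^ 2) ^ 2)⁻¹

theorem om_pos {d : ℕ} (w : Fin d → ℂ) : 0 < om w := Finset.prod_pos fun _ _ => by positivity

theorem om_cont {d : ℕ} : Continuous (om (d := d)) :=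
  continuous_finsetProd _ fun k _ => Continuous.inv₀ (by fun_prop) fun w => by positivity

theorem om_int (d : ℕ) : ∫⁻ w : Fin d → ℂ, ENNReal.ofReal (om w) ≠ ⊤ := by
  have h1 : Integrable (fun x : ℂ => ((1 + ‖x‖ ^ 2) ^ 2)⁻¹) := by
    have h := integrable_rpow_neg_one_add_norm_sq (E := ℂ) (μ := volume) (r := 4)
      (by rw [Complex.finrank_real_complex]; norm_num)
    refine h.congr (Eventually.of_forall fun x => ?_)
    have e : (-4 / 2 : ℝ) = -(2 : ℕ) := by norm_num
    simp only [e]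
    rw [Real.rpow_neg (by positivity), Real.rpow_natCast]
  have h2 : Integrable (om (d := d)) := Integrable.fintype_prod (f := fun _ : Fin d =>
    fun x : ℂ => ((1 + ‖x‖ ^ 2) ^ 2)⁻¹) fun _ => h1
  exact h2.lintegral_lt_top.ne

/-- the local estimate -/
theorem loc {d m : ℕ} {V : Set (Fin d → ℂ)} (hV : IsOpen V) (f : Fin m → (Fin d → ℂ) → ℂ)
    (hf : ∀ i, ContDiffOn ℂ 2 (f i) V) (l : Fin m → ℝ) (hl : ∀ i, 0 < l i) {τ : Fin d → ℂ}
    (hτ : τ ∈ V) (h : ∀ ξ, ‖ξ‖ ≤ ∑ i, l i * (‖fderiv ℂ (f i) τ ξ‖ / (1 + ‖f i τ‖ ^ 2))) :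
    ∃ I : Fin d → Fin m, Function.Injective I ∧ ∃ U, IsOpen U ∧ τ ∈ U ∧ U ⊆ V ∧
      ∀ A ⊆ U, MeasurableSet A → MeasurableSet ((fun x k => f (I k) x) '' A) ∧
        ENNReal.ofReal (1 / (2 * (((m : ℝ) + 1) ^ (2 * d)) ^ 2)) * volume A ≤
          ∫⁻ w in (fun x k => f (I k) x) '' A,
            ENNReal.ofReal (∏ k, l (I k) ^ 2) * ENNReal.ofReal (om w) := by
  classical
  let v : Fin m → ℝ := fun i => l i / (1 + ‖f i τ‖ ^ 2)
  have hv : ∀ i, 0 < v i := fun i => div_pos (hl i) (by positivity)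
  let J : Matrix (Fin m) (Fin d) ℂ := fun i j => fderiv ℂ (f i) τ (Pi.single j 1)
  have hJ : ∀ ξ i, (Matrix.of fun i j => (v i : ℂ) * J i j).mulVec ξ i =
      v i * fderiv ℂ (f i) τ ξ := by
    intro ξ i
    have e : ξ = ∑ j, ξ j • (Pi.single j 1 : Fin d → ℂ) := by
      funext k
      simp [Pi.single_apply, Finset.sum_apply]
    conv_rhs => rw [e, map_sum, Finset.mul_sum]
    rw [Matrix.mulVec, dotProduct]
    refine Finset.sum_congr rfl fun j _ => ?_
    simp only [Matrix.of_apply, J, map_smul, smul_eq_mul]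
    ring
  obtain ⟨I, hI, hd⟩ := minor (Matrix.of fun i j => (v i : ℂ) * J i j) fun ξ => (h ξ).trans_eq
    (Finset.sum_congr rfl fun i _ => by
      rw [hJ, norm_mul, Complex.norm_real, Real.norm_of_nonneg (hv i).le]
      simp only [v]
      ring)
  set φ : (Fin d → ℂ) → Fin d → ℂ := fun x k => f (I k) x with hφ
  have hφc : ContDiffOn ℂ 2 φ V := contDiffOn_pi.2 fun k => hf (I k)
  have hφd : ∀ x ∈ V, HasFDerivAt φ (fderiv ℂ φ x) x := fun x hx =>
    ((hφc.contDiffAt (hV.mem_nhds hx)).differentiableAt (by norm_num)).hasFDerivAt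
  have hdet : ((Matrix.of fun i j => (v i : ℂ) * J i j).submatrix I id).det =
      (∏ k, (v (I k) : ℂ)) * (fderiv ℂ φ τ).det := by
    have e1 : (Matrix.of fun i j => (v i : ℂ) * J i j).submatrix I id =
        Matrix.of fun k j => (v (I k) : ℂ) * LinearMap.toMatrix'
          (fderiv ℂ φ τ : (Fin d → ℂ) →ₗ[ℂ] Fin d → ℂ) k j := by
      ext k j
      rw [fderiv_pi fun k => ((hf (I k)).contDiffAt (hV.mem_nhds hτ)).differentiableAt
        (by norm_num)]
      simp [J, LinearMap.toMatrix'_apply]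
    rw [e1, Matrix.det_mul_column, LinearMap.det_toMatrix']
  let G : (Fin d → ℂ) → ℝ := fun x => (∏ k, l (I k) ^ 2) * om (φ x) * ‖(fderiv ℂ φ x).det‖ ^ 2
  have hG : ContinuousOn G V :=
    (continuousOn_const.mul (om_cont.comp_continuousOn hφc.continuousOn)).mul
      ((ContinuousLinearMap.continuous_det.comp_continuousOn
        (hφc.continuousOn_fderiv_of_isOpen hV (by norm_num))).norm.pow 2)
  set M : ℝ := ((m : ℝ) + 1) ^ (2 * d) with hM
  have hM0 : 0 < M := by positivity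
  have hGτ : G τ = ‖((Matrix.of fun i j => (v i : ℂ) * J i j).submatrix I id).det‖ ^ 2 := by
    rw [hdet, norm_mul, mul_pow, norm_prod, ← Finset.prod_pow]
    simp only [G, om]
    rw [← Finset.prod_mul_distrib]
    refine congrArg (· * _) (Finset.prod_congr rfl fun k _ => ?_)
    rw [Complex.norm_real, Real.norm_of_nonneg (hv _).le]
    simp only [v, hφ]
    rw [div_pow, div_eq_mul_inv]
  have hG1 : 1 / (2 * M ^ 2) < G τ := by
    rw [hGτ, div_lt_iff₀ (by positivity)]
    nlinarith [one_le_pow₀ (n := 2) hd]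
  have hne : (fderiv ℂ φ τ).det ≠ 0 := fun h0 => by
    rw [hdet, h0, mul_zero, norm_zero, mul_zero] at hd
    linarith
  have hs : HasStrictFDerivAt φ (((fderiv ℂ φ τ).toContinuousLinearEquivOfDetNeZero hne :
      (Fin d → ℂ) ≃L[ℂ] Fin d → ℂ) : (Fin d → ℂ) →L[ℂ] Fin d → ℂ) τ := by
    rw [ContinuousLinearMap.coe_toContinuousLinearEquivOfDetNeZero]
    exact (hφc.contDiffAt (hV.mem_nhds hτ)).hasStrictFDerivAt (by norm_num)
  have hev : ∀ᶠ x in 𝓝 τ, x ∈ V ∧ x ∈ (hs.toOpenPartialHomeomorph φ).source ∧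
      1 / (2 * M ^ 2) < G x :=
    (hV.eventually_mem hτ).and (((hs.toOpenPartialHomeomorph φ).open_source.eventually_mem
      hs.mem_toOpenPartialHomeomorph_source).and
      ((hG.continuousAt (hV.mem_nhds hτ)).eventually (lt_mem_nhds hG1)))
  obtain ⟨U, hU, hUo, hτU⟩ := eventually_nhds_iff.1 hev
  refine ⟨I, hI, U, hUo, hτU, fun x hx => (hU x hx).1, fun A hA hAm => ?_⟩
  have hinj : InjOn φ A := (hs.toOpenPartialHomeomorph φ).injOn.mono fun x hx =>
    (hU x (hA hx)).2.1
  have hder : ∀ x ∈ A, HasFDerivWithinAt φ ((fderiv ℂ φ x).restrictScalars ℝ) A x := fun x hx =>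
    ((hφd x (hU x (hA hx)).1).restrictScalars ℝ).hasFDerivWithinAt
  refine ⟨measurable_image_of_fderivWithin hAm hder hinj, ?_⟩
  rw [lintegral_image_eq_lintegral_abs_det_fderiv_mul volume hAm hder hinj,
    ← setLIntegral_const]
  refine setLIntegral_mono' hAm fun x hx => ?_
  have e : ((fderiv ℂ φ x).restrictScalars ℝ).det = ‖(fderiv ℂ φ x).det‖ ^ 2 := by
    rw [← Complex.normSq_eq_norm_sq, ← Algebra.norm_complex_apply,
      ← LinearMap.det_restrictScalars]
    rfl
  rw [e, abs_of_nonneg (by positivity), ← ENNReal.ofReal_mul (by positivity),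
    ← ENNReal.ofReal_mul (by positivity)]
  refine ENNReal.ofReal_le_ofReal ((hU x (hA hx)).2.2.le.trans_eq ?_)
  simp only [G]
  ring

theorem stmtCNT : StmtCNT := by
  classical
  intro d m
  set c0 : ℝ := 1 / (2 * (((m : ℝ) + 1) ^ (2 * d)) ^ 2) with hc0
  have hc0p : 0 < c0 := by positivity
  set K : ℝ := (∫⁻ w : Fin d → ℂ, ENNReal.ofReal (om w)).toReal with hK
  have hK0 : 0 ≤ K := ENNReal.toReal_nonneg
  set c : ℝ := c0 / (2 * ((m : ℝ) ^ d * K + 1)) with hc
  have hcp : 0 < c := by positivity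
  refine ⟨c, hcp, fun E _ _ t R σ l V0 Δ _ _ hl hV hne hfin hΔ H => ?_⟩
  by_contra! hcon
  set W : Set (Fin d → ℂ) := {τ | τ ∈ V0 ∧ MvPolynomial.aeval τ Δ ≠ 0} with hW
  have hW0 : volume V0 ≤ volume W := measure_mono_ae (by
    filter_upwards [ae_ne_rat hΔ] with x hx h using ⟨h, hx⟩)
  have hpos : 0 < volume V0 := hV.measure_pos volume hne
  have hWn : W.Nonempty := nonempty_of_measure_ne_zero (hpos.trans_le hW0).ne'
  choose F hF hFn using fun τ : W => H τ τ.2.1 τ.2.2
  choose I hI U hUo hτU hUV hA using fun τ : W => loc (F τ).op (fun i x => (F τ).Y x (σ i))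
    (fun i => (F τ).sm (σ i)) l hl (hF τ) (hFn τ)
  obtain ⟨T, hTc, hTU⟩ := TopologicalSpace.isOpen_iUnion_countable U hUo
  have hWU : W ⊆ ⋃ i ∈ T, U i := fun x hx => hTU ▸ mem_iUnion.2 ⟨⟨x, hx⟩, hτU _⟩
  have hTn : T.Nonempty := by
    obtain ⟨x, hx⟩ := hWn
    obtain ⟨i, hi, -⟩ := mem_iUnion₂.1 (hWU hx)
    exact ⟨i, hi⟩
  obtain ⟨p, rfl⟩ := hTc.exists_eq_range hTn
  rw [biUnion_range] at hWU
  let A : ℕ → Set (Fin d → ℂ) := disjointed fun n => U (p n)
  have hAm : ∀ n, MeasurableSet (A n) :=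
    MeasurableSet.disjointed fun n => (hUo (p n)).measurableSet
  have hAU : ∀ n, A n ⊆ U (p n) := fun n => disjointed_subset (fun n => U (p n)) n
  let S : ℕ → Set (Fin d → ℂ) := fun n => (fun x k => (F (p n)).Y x (σ (I (p n) k))) '' A n
  let L : (Fin d → Fin m) → ℝ := fun J => ∏ k, l (J k) ^ 2
  have hL : ∀ J, 0 < L J := fun J => Finset.prod_pos fun k _ => pow_pos (hl _) 2
  set v : ℝ := (volume V0).toReal with hv
  have hv0 : 0 < v := ENNReal.toReal_pos hpos.ne' hfin
  have hpt : ∀ᵐ w : Fin d → ℂ, ∑' n, (S n).indicator (fun w => ENNReal.ofReal (L (I (p n))) *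
      ENNReal.ofReal (om w)) w ≤ ENNReal.ofReal ((m : ℝ) ^ d * (c * v)) * ENNReal.ofReal (om w) := by
    filter_upwards [ae_indep d] with w hw
    rw [ENNReal.tsum_eq_iSup_sum]
    refine iSup_le fun s => ?_
    simp only [indicator_apply]
    rw [← Finset.sum_filter, ← Finset.sum_mul, ← ENNReal.ofReal_sum_of_nonneg
      fun n _ => (hL _).le]
    gcongr
    rw [← Finset.sum_fiberwise _ fun n => I (p n)]
    refine (Finset.sum_le_card_nsmul _ _ (c * v) fun J _ => ?_).trans_eq (by simp)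
    rw [Finset.sum_congr rfl fun n hn => congrArg L (Finset.mem_filter.1 hn).2, Finset.sum_const,
      nsmul_eq_mul]
    set s' := (s.filter fun n => w ∈ S n).filter fun n => I (p n) = J with hs'
    rcases s'.eq_empty_or_nonempty with he | he
    · rw [he, Finset.card_empty, Nat.cast_zero, zero_mul]
      positivity
    have hJ : Function.Injective J := by
      obtain ⟨n, hn⟩ := he
      exact (Finset.mem_filter.1 hn).2 ▸ hI (p n)
    let e := s'.equivFin.symm
    choose x hx hxw using fun a => (Finset.mem_filter.1 (Finset.mem_filter.1 (e a).2).1).2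
    refine (hcon J s'.card hJ he.card_pos (big_of (fun k => σ (J k)) (F (p 0)).mem
      (fun a => (F (p (e a))).Y (x a)) w hw (fun a k => ?_) fun a b hab => ?_)).le
    · rw [← (Finset.mem_filter.1 (e a).2).2]
      exact congrFun (hxw a) k
    · have h1 : x a = x b := funext fun i => by
        rw [← (F (p (e a))).crd _ (hUV _ (hAU _ (hx a))) i,
          ← (F (p (e b))).crd _ (hUV _ (hAU _ (hx b))) i]
        exact congrFun hab i
      by_contra hne'
      exact Set.disjoint_left.1 (disjoint_disjointed (fun n => U (p n))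
        (fun h => hne' (e.injective (Subtype.ext h)))) (hx a) (h1 ▸ hx b)
  have hmain : ENNReal.ofReal c0 * volume V0 ≤ ENNReal.ofReal ((m : ℝ) ^ d * (c * v)) *
      ∫⁻ w : Fin d → ℂ, ENNReal.ofReal (om w) := by
    have hom : Measurable fun w : Fin d → ℂ => ENNReal.ofReal (om w) :=
      om_cont.measurable.ennreal_ofReal
    calc ENNReal.ofReal c0 * volume V0 ≤ ENNReal.ofReal c0 * ∑' n, volume (A n) := by
          gcongr
          refine hW0.trans ((measure_mono ?_).trans (measure_iUnion_le A))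
          rwa [iUnion_disjointed]
      _ ≤ ∑' n, ∫⁻ w, (S n).indicator (fun w => ENNReal.ofReal (L (I (p n))) *
            ENNReal.ofReal (om w)) w := by
          rw [← ENNReal.tsum_mul_left]
          refine ENNReal.tsum_le_tsum fun n => ?_
          rw [lintegral_indicator (hA _ _ (hAU n) (hAm n)).1]
          exact (hA _ _ (hAU n) (hAm n)).2
      _ ≤ _ := by
          rw [← lintegral_tsum fun n => ((hom.const_mul _).indicator
            (hA _ _ (hAU n) (hAm n)).1).aemeasurable, ← lintegral_const_mul _ hom]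
          exact lintegral_mono_ae hpt
  have h2 := ENNReal.toReal_mono (ENNReal.mul_ne_top ENNReal.ofReal_ne_top (om_int d)) hmain
  rw [ENNReal.toReal_mul, ENNReal.toReal_mul, ENNReal.toReal_ofReal hc0p.le,
    ENNReal.toReal_ofReal (by positivity), ← hv, ← hK] at h2
  have h3 : c0 = c * (2 * ((m : ℝ) ^ d * K + 1)) := by
    rw [hc]
    field_simp
  have h4 : 0 ≤ (m : ℝ) ^ d * K := by positivity
  have h5 := mul_pos hcp hv0
  rw [h3] at h2
  nlinarith [mul_nonneg h4 h5.le]

end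

end Pool.Agent.MP_8d06cc_nt.AB75
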