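import Pool.Agent.MP_8d06cc_nt.AB75.Step
import Pool.Agent.MP_8d06cc_nt.AB.Spec

/-! Existence and extension of families of complex points. -/

set_option autoImplicit false

namespace Pool.Agent.MP_8d06cc_nt.AB75

open Set Filter Topology Polynomial AB

noncomputable section

variable {E : Type} [Field E] [CharZero E] {d : ℕ} {t : Fin d → E}

theorem alg_adjoin {G : Set E} (h : ∀ a ∈ G, Alg t a) : ∀ a ∈ Algebra.adjoin ℚ G, Alg t a := by
  have h1 : Algebra.adjoin ℚ G ≤ (algebraicClosure (IntermediateField.adjoin ℚ (range t))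
      E).toSubalgebra.restrictScalars ℚ :=
    Algebra.adjoin_le fun a ha => mem_algebraicClosure_iff.2 (h a ha)
  exact fun a ha => mem_algebraicClosure_iff.1 (h1 ha)

theorem alg_gen (i : Fin d) : Alg t (t i) :=
  isAlgebraic_algebraMap (⟨t i, IntermediateField.subset_adjoin _ _ ⟨i, rfl⟩⟩ :
    IntermediateField.adjoin ℚ (range t))

theorem base_le {R : Subalgebra ℚ E} (ht : ∀ i, t i ∈ R) : Algebra.adjoin ℚ (range t) ≤ R :=
  Algebra.adjoin_le (range_subset_iff.2 ht)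

theorem alg_over {R : Subalgebra ℚ E} (ht : ∀ i, t i ∈ R) {u : E} (hu : Alg t u) :
    IsAlgebraic R u :=
  (IntermediateField.isAlgebraic_adjoin_iff.1 hu).tower_top_of_subalgebra_le (base_le ht)

/-- a nonzero algebraic element does not vanish off a hypersurface -/
theorem exists_norm {R : Subalgebra ℚ E} (ht : ∀ i, t i ∈ R) (x : R) (hx : x ≠ 0)
    (ha : Alg t (x : E)) : ∃ Δ : MvPolynomial (Fin d) ℚ, Δ ≠ 0 ∧ ∀ y : R →+* ℂ,
      MvPolynomial.aeval (fun i => y ⟨t i, ht i⟩) Δ ≠ 0 → y x ≠ 0 := by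
  obtain ⟨x', hx', r, hr, e⟩ := (IntermediateField.isAlgebraic_adjoin_iff.1
    ha).exists_nonzero_eq_adjoin_mul (mem_nonZeroDivisors_of_ne_zero fun h => hx (Subtype.ext h))
  have hm : x' ∈ R := by
    rw [Algebra.adjoin_singleton_eq_range_aeval] at hx'
    obtain ⟨q, rfl⟩ := hx'
    change aeval (x : E) q ∈ R
    rw [aeval_eq_sum_range]
    exact sum_mem fun i _ => mul_mem (base_le ht (q.coeff i).2) (pow_mem x.2 i)
  obtain ⟨Δ, hΔ⟩ : ∃ Δ : MvPolynomial (Fin d) ℚ, MvPolynomial.aeval t Δ = (r : E) :=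
    (Algebra.adjoin_range_eq_range_aeval ℚ t).le r.2
  refine ⟨Δ, fun h => hr (Subtype.ext ?_), fun y hy h => hy ?_⟩
  · rw [← hΔ, h, map_zero]
    rfl
  · have e1 : x * ⟨x', hm⟩ = MvPolynomial.aeval (fun i => (⟨t i, ht i⟩ : R)) Δ :=
      Subtype.ext ((e.trans hΔ.symm).trans (coe_aeval (fun i => (⟨t i, ht i⟩ : R)) Δ).symm)
    rw [← hom_aeval, ← e1, map_mul, h, zero_mul]

theorem ext_one {R : Subalgebra ℚ E} (hR : ∀ a ∈ R, Alg t a) (ht : ∀ i, t i ∈ R) {u : E}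
    (hu : Alg t u) : ∃ (R1 : Subalgebra ℚ E) (h : R ≤ R1) (Δ : MvPolynomial (Fin d) ℚ),
      u ∈ R1 ∧ (∀ a ∈ R1, Alg t a) ∧ Δ ≠ 0 ∧ ∀ (F : Fam t R), ∀ τ ∈ F.V,
        MvPolynomial.aeval τ Δ ≠ 0 → ∃ F1 : Fam t R1, τ ∈ F1.V ∧ F1.V ⊆ F.V ∧
          ∀ σ ∈ F1.V, ∀ r : R, F1.Y σ (Subalgebra.inclusion h r) = F.Y σ r := by
  let R1 := Algebra.adjoin ℚ (insert u (R : Set E))
  have hle : R ≤ R1 := fun a ha => Algebra.subset_adjoin (mem_insert_of_mem _ ha)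
  have hu1 : u ∈ R1 := Algebra.subset_adjoin (mem_insert _ _)
  have hR1 : ∀ a ∈ R1, Alg t a := alg_adjoin (by
    rintro a (rfl | ha)
    exacts [hu, hR a ha])
  obtain ⟨p, hp⟩ := exists_st (hle := hle) (u := ⟨u, hu1⟩) le_rfl (alg_over ht hu)
  obtain ⟨Δ1, h1, k1⟩ := exists_norm ht p.leadingCoeff (leadingCoeff_ne_zero.2 hp.p0)
    (hR _ p.leadingCoeff.2)
  obtain ⟨Δ2, h2, k2⟩ := exists_norm (fun i => hle (ht i)) _ hp.der_ne (hR1 _ (Subtype.prop _))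
  refine ⟨R1, hle, Δ1 * Δ2, hu1, hR1, mul_ne_zero h1 h2, fun F τ hτ hΔ => ?_⟩
  rw [map_mul, mul_ne_zero_iff] at hΔ
  have e1 : (fun i => F.Y τ ⟨t i, ht i⟩) = τ := funext (F.crd τ hτ)
  have hc := k1 (F.Y τ) (by rw [e1]; exact hΔ.1)
  obtain ⟨z, hz⟩ := hp.exists_root _ hc
  obtain ⟨y', hy'⟩ := hp.lift _ hc z hz
  have hy : ∀ r, y' (Subalgebra.inclusion hle r) = F.Y τ r := fun r => by
    simpa using hy' (C r)
  have e2 : (fun i => y' ⟨t i, hle (ht i)⟩) = τ :=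
    funext fun i => (hy ⟨t i, ht i⟩).trans (F.crd τ hτ i)
  obtain ⟨F1, a1, a2, -, a3⟩ := hp.fam F hτ y' hy hc (k2 y' (by rw [e2]; exact hΔ.2))
  exact ⟨F1, a1, a2, a3⟩

theorem stmtEXT : StmtEXT := by
  intro E _ _ d t R u _ hR ht hu
  induction u, hu using Set.Finite.induction_on with
  | empty =>
    exact fun _ => ⟨R, le_rfl, 1, empty_subset _, hR, one_ne_zero, fun F τ hτ _ =>
      ⟨F, hτ, Subset.rfl, fun _ _ _ => rfl⟩⟩
  | @insert a s _ _ ih =>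
    intro h
    obtain ⟨R1, l1, Δ1, s1, a1, n1, f1⟩ := ih fun b hb => h b (mem_insert_of_mem _ hb)
    obtain ⟨R2, l2, Δ2, s2, a2, n2, f2⟩ := ext_one a1 (fun i => l1 (ht i)) (h a (mem_insert _ _))
    refine ⟨R2, l1.trans l2, Δ1 * Δ2, insert_subset s2 fun b hb => l2 (s1 hb), a2,
      mul_ne_zero n1 n2, fun F τ hτ hΔ => ?_⟩
    rw [map_mul, mul_ne_zero_iff] at hΔ
    obtain ⟨F1, b1, b2, b3⟩ := f1 F τ hτ hΔ.1
    obtain ⟨F2, c1, c2, c3⟩ := f2 F1 τ b1 hΔ.2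
    exact ⟨F2, c1, c2.trans b2, fun σ hσ r =>
      (c3 σ hσ (Subalgebra.inclusion l1 r)).trans (b3 σ (c2 hσ) r)⟩

theorem init_base (ht : AlgebraicIndependent ℚ t) (y : Algebra.adjoin ℚ (range t) →+* ℂ) :
    ∃ F : Fam t (Algebra.adjoin ℚ (range t)), ∃ τ ∈ F.V, F.Y τ = y := by
  have hm : ∀ i, t i ∈ Algebra.adjoin ℚ (range t) := fun i => Algebra.subset_adjoin ⟨i, rfl⟩
  have he : ∀ q, ht.aevalEquiv q =
      MvPolynomial.aeval (fun i => (⟨t i, hm i⟩ : Algebra.adjoin ℚ (range t))) q := fun q =>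
    Subtype.ext ((ht.algebraMap_aevalEquiv q).trans (coe_aeval
      (fun i => (⟨t i, hm i⟩ : Algebra.adjoin ℚ (range t))) q).symm)
  refine ⟨⟨univ, fun τ => (MvPolynomial.aeval τ).toRingHom.comp
    ht.aevalEquiv.symm.toAlgHom.toRingHom, isOpen_univ, hm, fun τ _ i => ?_,
    fun r => (contDiff_aeval _).contDiffOn⟩, fun i => y ⟨t i, hm i⟩, trivial,
    RingHom.ext fun r => ?_⟩
  · have e : (⟨t i, hm i⟩ : Algebra.adjoin ℚ (range t)) = ht.aevalEquiv (MvPolynomial.X i) := by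
      rw [he, MvPolynomial.aeval_X]
    change MvPolynomial.aeval τ (ht.aevalEquiv.symm ⟨t i, hm i⟩) = τ i
    rw [e, AlgEquiv.symm_apply_apply, MvPolynomial.aeval_X]
  · obtain ⟨q, rfl⟩ := ht.aevalEquiv.surjective r
    change MvPolynomial.aeval _ (ht.aevalEquiv.symm (ht.aevalEquiv q)) = _
    rw [AlgEquiv.symm_apply_apply, he, hom_aeval]

theorem adjoin_le_ins (u : E) (G : Set E) : Algebra.adjoin ℚ (insert u G) ≤
    Algebra.adjoin ℚ (insert u (Algebra.adjoin ℚ G : Set E)) :=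
  Algebra.adjoin_mono (insert_subset_insert Algebra.subset_adjoin)

theorem two_step {R0 R1 R2 : Subalgebra ℚ E} {l1 : R0 ≤ R1} (l2 : R1 ≤ R2) {u : R1} {p : R0[X]}
    (hp : St R0 R1 l1 u p) (w : R2) (hR : R2 ≤ Algebra.adjoin ℚ (insert (w : E) (R1 : Set E)))
    (c : R1) (hc : c = Subalgebra.inclusion l1 p.leadingCoeff *
      eval₂RingHom (Subalgebra.inclusion l1).toRingHom u (derivative p)) (hw : (c : E) * w = 1)
    (H : ∀ y : R0 →+* ℂ, ∃ F : Fam t R0, ∃ τ ∈ F.V, F.Y τ = y) (y : R2 →+* ℂ) :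
    ∃ F : Fam t R2, ∃ τ ∈ F.V, F.Y τ = y := by
  let y1 := y.comp (Subalgebra.inclusion l2).toRingHom
  have h1 : y1 c ≠ 0 := by
    have e : Subalgebra.inclusion l2 c * w = 1 := Subtype.ext hw
    have h2 := congrArg y e
    rw [map_mul, map_one] at h2
    exact left_ne_zero_of_mul_eq_one h2
  rw [hc, map_mul, mul_ne_zero_iff] at h1
  obtain ⟨F, τ, hτ, hF⟩ := H (y1.comp (Subalgebra.inclusion l1).toRingHom)
  obtain ⟨F1, a1, -, a2, -⟩ := hp.fam F hτ y1 (fun r => by rw [hF]; rfl)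
    (by rw [hF]; exact h1.1) h1.2
  obtain ⟨F2, b1, b2⟩ := fam_inv (hle := l2) hR c hw F1 a1 y fun r => by rw [a2]; rfl
  exact ⟨F2, τ, b1, b2⟩

theorem init_step {G : Set E} (ht : range t ⊆ G) (hG : ∀ a ∈ Algebra.adjoin ℚ G, Alg t a)
    (H : ∀ y : Algebra.adjoin ℚ G →+* ℂ, ∃ F : Fam t (Algebra.adjoin ℚ G), ∃ τ ∈ F.V, F.Y τ = y)
    {u : E} (hu : Alg t u) : ∃ w : E, Alg t w ∧
      ∀ y : Algebra.adjoin ℚ (insert w (insert u G)) →+* ℂ,
        ∃ F : Fam t (Algebra.adjoin ℚ (insert w (insert u G))), ∃ τ ∈ F.V, F.Y τ = y := by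
  have l1 : Algebra.adjoin ℚ G ≤ Algebra.adjoin ℚ (insert u G) :=
    Algebra.adjoin_mono (subset_insert _ _)
  have hu1 : u ∈ Algebra.adjoin ℚ (insert u G) := Algebra.subset_adjoin (mem_insert _ _)
  have hR1 : ∀ a ∈ Algebra.adjoin ℚ (insert u G), Alg t a := alg_adjoin (by
    rintro a (rfl | ha)
    exacts [hu, hG a (Algebra.subset_adjoin ha)])
  obtain ⟨p, hp⟩ := exists_st (hle := l1) (u := ⟨u, hu1⟩) (adjoin_le_ins u G)
    (alg_over (fun i => Algebra.subset_adjoin (ht ⟨i, rfl⟩)) hu)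
  obtain ⟨c, hc⟩ : ∃ c, c = Subalgebra.inclusion l1 p.leadingCoeff *
    eval₂RingHom (Subalgebra.inclusion l1).toRingHom ⟨u, hu1⟩ (derivative p) := ⟨_, rfl⟩
  have hc0 : c ≠ 0 := hc ▸ mul_ne_zero (fun h1 => leadingCoeff_ne_zero.2 hp.p0
    (Subalgebra.inclusion_injective l1 (h1.trans (map_zero _).symm))) hp.der_ne
  exact ⟨(c : E)⁻¹, (hR1 _ c.2).inv, two_step (Algebra.adjoin_mono (subset_insert _ _)) hp
    ⟨(c : E)⁻¹, Algebra.subset_adjoin (mem_insert _ _)⟩ (adjoin_le_ins _ _) c hc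
    (mul_inv_cancel₀ fun h => hc0 (Subtype.ext h)) H⟩

theorem stmtINIT : StmtINIT := by
  intro E _ _ d t u ht hu h
  suffices H : ∃ G : Set E, range t ⊆ G ∧ G.Finite ∧ u ⊆ G ∧
      (∀ a ∈ Algebra.adjoin ℚ G, Alg t a) ∧ ∀ y : Algebra.adjoin ℚ G →+* ℂ,
        ∃ F : Fam t (Algebra.adjoin ℚ G), ∃ τ ∈ F.V, F.Y τ = y from H.imp fun G hG => hG.2
  induction u, hu using Set.Finite.induction_on with
  | empty =>
    exact ⟨range t, Subset.rfl, finite_range t, empty_subset _,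
      alg_adjoin (forall_mem_range.2 alg_gen), init_base ht⟩
  | @insert a s _ _ ih =>
    obtain ⟨G, g1, g2, g3, g4, g5⟩ := ih fun b hb => h b (mem_insert_of_mem _ hb)
    have ha := h a (mem_insert _ _)
    obtain ⟨w, hw, H⟩ := init_step g1 g4 g5 ha
    refine ⟨insert w (insert a G), g1.trans ((subset_insert _ _).trans (subset_insert _ _)),
      (g2.insert a).insert w, (insert_subset_insert g3).trans (subset_insert _ _),
      alg_adjoin ?_, H⟩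
    rintro b (rfl | rfl | hb)
    exacts [hw, ha, g4 b (Algebra.subset_adjoin hb)]

end

end Pool.Agent.MP_8d06cc_nt.AB75
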