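import Mathlib

set_option autoImplicit false

open MeasureTheory

namespace AB75

/-- A family of complex points of the subalgebra `R` over the open set `V` of values of `t`. -/
structure Fam {Om : Type} [Field Om] [CharZero Om] {d : ℕ} (t : Fin d → Om)
    (R : Subalgebra ℚ Om) (V : Set (Fin d → ℂ)) (Y : (Fin d → ℂ) → R →+* ℂ) : Prop where
  opn : IsOpen V
  ev : ∀ τ ∈ V, ∀ (i : Fin d) (h : t i ∈ R), Y τ ⟨t i, h⟩ = τ i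
  sm : ∀ r : R, ContDiffOn ℂ 2 (fun τ => Y τ r) V

/-- `g` elements of `ℚ[t]` that are independent over the polynomial ring in `s`. -/
def Big {Om : Type} [Field Om] [CharZero Om] {d : ℕ} (s t : Fin d → Om) (g : ℕ) : Prop :=
  ∃ P : Fin g → MvPolynomial (Fin d) ℚ, ∀ Q : Fin g → MvPolynomial (Fin d) ℚ,
    ∑ a, MvPolynomial.aeval s (Q a) * MvPolynomial.aeval t (P a) = 0 → ∀ a, Q a = 0

def StInit : Prop :=
  ∀ (Om : Type) [Field Om] [CharZero Om] (d : ℕ) (t : Fin d → Om), AlgebraicIndependent ℚ t →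
    ∃ Y, Fam t (Algebra.adjoin ℚ (Set.range t)) Set.univ Y

def StExt : Prop :=
  ∀ (Om : Type) [Field Om] [CharZero Om] (d : ℕ) (t : Fin d → Om) (R R' : Subalgebra ℚ Om)
    (hle : R ≤ R') (ht : ∀ i, t i ∈ R) (U : Set Om), U.Finite →
    R' = Algebra.adjoin ℚ ((R : Set Om) ∪ U) →
    (∀ x ∈ R, IsAlgebraic (Algebra.adjoin ℚ (Set.range t)) x) →
    (∀ x ∈ U, IsAlgebraic (Algebra.adjoin ℚ (Set.range t)) x) →
    ∃ Del : MvPolynomial (Fin d) ℚ, MvPolynomial.aeval t Del ≠ 0 ∧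
      (∀ y : R →+* ℂ, MvPolynomial.aeval (fun i => y ⟨t i, ht i⟩) Del ≠ 0 →
        ∃ y' : R' →+* ℂ, ∀ r : R, y' ⟨r, hle r.2⟩ = y r) ∧
      (∀ V Y, Fam t R V Y → ∀ τ0 ∈ V, MvPolynomial.aeval τ0 Del ≠ 0 →
        ∀ y' : R' →+* ℂ, (∀ r : R, y' ⟨r, hle r.2⟩ = Y τ0 r) →
          ∃ V' : Set (Fin d → ℂ), V' ⊆ V ∧ τ0 ∈ V' ∧ ∃ Y', Fam t R' V' Y' ∧ Y' τ0 = y' ∧
            ∀ τ ∈ V', ∀ r : R, Y' τ ⟨r, hle r.2⟩ = Y τ r)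

def StCnt : Prop :=
  ∀ m d : ℕ, ∃ c : ℝ, 0 < c ∧
    ∀ (Om : Type) [Field Om] [CharZero Om] (t : Fin d → Om) (R : Subalgebra ℚ Om),
      (∀ i, t i ∈ R) → ∀ (σ : Fin m → R) (lam : Fin m → ℝ), (∀ i, 0 < lam i) →
      ∀ V0 : Set (Fin d → ℂ), IsOpen V0 → V0.Nonempty → volume V0 ≠ ⊤ →
      ∀ Del : MvPolynomial (Fin d) ℚ, Del ≠ 0 →
      (∀ τ0 ∈ V0, MvPolynomial.aeval τ0 Del ≠ 0 → ∃ V Y, Fam t R V Y ∧ τ0 ∈ V ∧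
        ∀ ξ : Fin d → ℂ, ‖ξ‖ ^ 2 ≤ ∑ i, lam i ^ 2 * ‖fderiv ℂ (fun τ => Y τ (σ i)) τ0 ξ‖ ^ 2 /
          (1 + ‖Y τ0 (σ i)‖ ^ 2) ^ 2) →
      ∃ I : Fin d → Fin m, Function.Injective I ∧ ∃ g : ℕ, 1 ≤ g ∧
        Big (fun k => (σ (I k) : Om)) t g ∧ c * volume.real V0 ≤ g * ∏ k, lam (I k) ^ 2

end AB75
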