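import Pool.Agent.MP_8d06cc_nt.AB.Defs

/-! Null sets, large minors and the counting lemma. -/

set_option autoImplicit false

namespace Pool.Agent.MP_8d06cc_nt.AB75

open MeasureTheory Set Filter Topology Polynomial AB

theorem ae_ne (d : ℕ) : ∀ q : MvPolynomial (Fin d) ℂ, q ≠ 0 →
    ∀ᵐ x : Fin d → ℂ, MvPolynomial.eval x q ≠ 0 := by
  induction d with
  | zero =>
    intro q hq
    refine Eventually.of_forall fun x h => hq (MvPolynomial.funext fun y => ?_)
    rw [Subsingleton.elim y x, h, map_zero]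
  | succ d ih =>
    intro q hq
    set p := MvPolynomial.finSuccEquiv ℂ d q with hp
    have hp0 : p ≠ 0 := fun h => hq ((MvPolynomial.finSuccEquiv ℂ d).map_eq_zero_iff.1 h)
    have hl := ih p.leadingCoeff (leadingCoeff_ne_zero.2 hp0)
    have hc : Continuous fun z : ℂ × (Fin d → ℂ) =>
        MvPolynomial.eval (Fin.cons z.1 z.2 : Fin (d + 1) → ℂ) q :=
      (MvPolynomial.continuous_eval q).comp
        (Continuous.finCons (A := fun _ => ℂ) continuous_fst continuous_snd)
    have hm : MeasurableSet {z : ℂ × (Fin d → ℂ) |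
        MvPolynomial.eval (Fin.cons z.1 z.2 : Fin (d + 1) → ℂ) q ≠ 0} :=
      (isOpen_ne_fun hc continuous_const).measurableSet
    have h1 : ∀ᵐ z : ℂ × (Fin d → ℂ),
        MvPolynomial.eval (Fin.cons z.1 z.2 : Fin (d + 1) → ℂ) q ≠ 0 := by
      rw [Measure.volume_eq_prod, Measure.ae_prod_iff_ae_ae hm, Measure.ae_ae_comm hm]
      filter_upwards [hl] with s hs
      have h2 : p.map (MvPolynomial.eval s) ≠ 0 := fun h => hs (by
        have := congrArg (fun r => r.coeff p.natDegree) h
        simpa using this)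
      filter_upwards [(p.map (MvPolynomial.eval s)).finite_setOfPred_isRoot h2 |>.countable.ae_notMem
        volume] with y hy
      rw [MvPolynomial.eval_eq_eval_mv_eval']
      exact hy
    have h3 := (volume_preserving_piFinSuccAbove (fun _ : Fin (d + 1) => ℂ) 0
      ).quasiMeasurePreserving.ae h1
    filter_upwards [h3] with x hx
    have e : (Fin.cons (x 0) (fun j => x (Fin.succ j)) : Fin (d + 1) → ℂ) = x :=
      Fin.cons_self_tail x
    rw [← e]
    exact hx

theorem ae_ne_rat {d : ℕ} {q : MvPolynomial (Fin d) ℚ} (hq : q ≠ 0) :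
    ∀ᵐ x : Fin d → ℂ, MvPolynomial.aeval x q ≠ 0 := by
  have h0 : MvPolynomial.map (algebraMap ℚ ℂ) q ≠ 0 := fun h =>
    hq (MvPolynomial.map_injective _ (algebraMap ℚ ℂ).injective (by rw [h, map_zero]))
  filter_upwards [ae_ne d _ h0] with x hx
  rwa [MvPolynomial.eval_map, ← MvPolynomial.aeval_def] at hx

theorem ae_indep (d : ℕ) : ∀ᵐ x : Fin d → ℂ, ∀ q : MvPolynomial (Fin d) ℚ,
    MvPolynomial.aeval x q = 0 → q = 0 := by
  haveI : Countable (MvPolynomial (Fin d) ℚ) := by
    rw [← Cardinal.mk_le_aleph0_iff]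
    refine MvPolynomial.cardinalMk_le_max_lift.trans ?_
    simp
  refine ae_all_iff.2 fun q => ?_
  by_cases hq : q = 0
  · exact Eventually.of_forall fun _ _ => hq
  · filter_upwards [ae_ne_rat hq] with x hx h using (hx h).elim

theorem contDiff_aeval {d : ℕ} (q : MvPolynomial (Fin d) ℚ) :
    ContDiff ℂ 2 fun x : Fin d → ℂ => MvPolynomial.aeval x q := by
  have e : (fun x : Fin d → ℂ => MvPolynomial.aeval x q) =
      fun x => MvPolynomial.eval x (MvPolynomial.map (algebraMap ℚ ℂ) q) := by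
    funext x
    rw [MvPolynomial.eval_map, ← MvPolynomial.aeval_def]
  rw [e]
  exact (AnalyticOnNhd.eval_mvPolynomial _).contDiff

/-- a ring map commutes with rational polynomials -/
theorem hom_aeval {R : Type} [CommRing R] [Algebra ℚ R] {d : ℕ} (y : R →+* ℂ) (a : Fin d → R)
    (q : MvPolynomial (Fin d) ℚ) :
    y (MvPolynomial.aeval a q) = MvPolynomial.aeval (fun i => y (a i)) q := by
  have h := MvPolynomial.comp_aeval (R := ℚ) a y.toRatAlgHom
  exact DFunLike.congr_fun h q

theorem coe_aeval {E : Type} [Field E] [CharZero E] {R : Subalgebra ℚ E} {d : ℕ} (a : Fin d → R)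
    (q : MvPolynomial (Fin d) ℚ) :
    ((MvPolynomial.aeval a q : R) : E) = MvPolynomial.aeval (fun i => (a i : E)) q := by
  have h := MvPolynomial.comp_aeval (R := ℚ) a R.val
  exact DFunLike.congr_fun h q

/-- a rational polynomial that separates finitely many points -/
theorem exists_sep {d g : ℕ} (τ : Fin g → Fin d → ℂ) (h : Function.Injective τ) :
    ∃ L : MvPolynomial (Fin d) ℚ, Function.Injective fun a => MvPolynomial.aeval (τ a) L := by
  classical
  let q : Fin g → Fin g → ℂ[X] := fun a b => ∑ i : Fin d, monomial (i : ℕ) (τ a i - τ b i)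
  have hq : ∀ a b, a ≠ b → q a b ≠ 0 := by
    intro a b hab h0
    refine hab (h (funext fun i => ?_))
    have h1 := congrArg (fun r => r.coeff (i : ℕ)) h0
    simp only [q, finsetSum_coeff, coeff_monomial, coeff_zero, Fin.val_inj] at h1
    rw [Finset.sum_ite_eq'] at h1
    simpa [sub_eq_zero] using h1
  have hf : (⋃ p : {p : Fin g × Fin g // p.1 ≠ p.2}, {x | IsRoot (q p.1.1 p.1.2) x}).Finite :=
    finite_iUnion fun p => finite_setOfPred_isRoot (hq _ _ p.2)
  obtain ⟨n, hn⟩ : ∃ n : ℕ, (n : ℂ) ∉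
      ⋃ p : {p : Fin g × Fin g // p.1 ≠ p.2}, {x | IsRoot (q p.1.1 p.1.2) x} := by
    by_contra! h0
    exact (infinite_range_of_injective (Nat.cast_injective (R := ℂ))) (hf.subset (by
      rintro _ ⟨n, rfl⟩
      exact h0 n))
  refine ⟨∑ i : Fin d, MvPolynomial.X i * (n : MvPolynomial (Fin d) ℚ) ^ (i : ℕ),
    fun a b hab => ?_⟩
  by_contra hne
  refine hn (mem_iUnion.2 ⟨⟨(a, b), hne⟩, ?_⟩)
  simp only [map_sum, map_mul, MvPolynomial.aeval_X, map_pow, map_natCast] at hab
  simp only [mem_ofPred_eq, IsRoot, q, eval_finsetSum, eval_monomial, sub_mul,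
    Finset.sum_sub_distrib, hab, sub_self]

/-- `g` complex points with distinct `t` over one generic value of `s` -/
theorem big_of {E : Type} [Field E] [CharZero E] {d g : ℕ} {t : Fin d → E} {R : Subalgebra ℚ E}
    (s : Fin d → R) (ht : ∀ i, t i ∈ R) (y : Fin g → R →+* ℂ) (w : Fin d → ℂ)
    (hw : ∀ q : MvPolynomial (Fin d) ℚ, MvPolynomial.aeval w q = 0 → q = 0)
    (hs : ∀ a k, y a (s k) = w k) (hi : Function.Injective fun a i => y a ⟨t i, ht i⟩) :
    Big (fun k => (s k : E)) t g := by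
  obtain ⟨L, hL⟩ := exists_sep _ hi
  refine ⟨fun a => L ^ (a : ℕ), fun Q hQ => ?_⟩
  have h0 : ∑ a, MvPolynomial.aeval s (Q a) *
      MvPolynomial.aeval (fun i => (⟨t i, ht i⟩ : R)) (L ^ (a : ℕ)) = 0 := by
    apply Subtype.ext
    rw [ZeroMemClass.coe_zero, ← hQ, AddSubmonoidClass.coe_finsetSum]
    refine Finset.sum_congr rfl fun a _ => ?_
    rw [MulMemClass.coe_mul, coe_aeval, coe_aeval]
  have h1 := Matrix.eq_zero_of_forall_index_sum_mul_pow_eq_zero
    (v := fun a => MvPolynomial.aeval w (Q a)) hL fun b => by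
      have h2 := congrArg (y b) h0
      rw [map_sum, map_zero] at h2
      rw [← h2]
      refine Finset.sum_congr rfl fun a _ => ?_
      rw [map_mul, hom_aeval, hom_aeval, map_pow]
      simp only [hs]
  exact fun a => hw _ (congrFun h1 a)

/-- a large minor -/
theorem minor {d m : ℕ} (A : Matrix (Fin m) (Fin d) ℂ)
    (h : ∀ ξ : Fin d → ℂ, ‖ξ‖ ≤ ∑ i, ‖A.mulVec ξ i‖) :
    ∃ I : Fin d → Fin m, Function.Injective I ∧
      1 ≤ ((m : ℝ) + 1) ^ (2 * d) * ‖(A.submatrix I id).det‖ := by
  classical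
  have h1 : ∀ ξ : Fin d → ℂ, ‖ξ‖ ≤ m * ‖A.mulVec ξ‖ := fun ξ => (h ξ).trans (by
    simpa using Finset.sum_le_card_nsmul Finset.univ _ _ fun i _ => norm_le_pi_norm (A.mulVec ξ) i)
  have hinj : Function.Injective A.mulVecLin := by
    rw [← LinearMap.ker_eq_bot, LinearMap.ker_eq_bot']
    intro ξ hξ
    have h2 := h1 ξ
    rw [Matrix.mulVecLin_apply] at hξ
    rw [hξ, norm_zero, mul_zero] at h2
    exact norm_le_zero_iff.1 h2
  have hB : ∀ j : Fin d, ∃ b : Fin m → ℂ, (∀ i, ‖b i‖ ≤ m) ∧
      ∀ k, ∑ i, b i * A i k = (1 : Matrix (Fin d) (Fin d) ℂ) j k := by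
    intro j
    let e := LinearEquiv.ofInjective _ hinj
    let f : LinearMap.range A.mulVecLin →ₗ[ℂ] ℂ := (LinearMap.proj j).comp e.symm.toLinearMap
    have hf : ∀ v, ‖f v‖ ≤ m * ‖v‖ := by
      intro v
      obtain ⟨ξ, rfl⟩ := e.surjective v
      have e1 : f (e ξ) = ξ j := by simp [f]
      rw [e1]
      exact (norm_le_pi_norm ξ j).trans (h1 ξ)
    obtain ⟨g, hg, hn⟩ := exists_extension_norm_eq _ (f.mkContinuous m hf)
    have hn' : ‖g‖ ≤ m := hn ▸ f.mkContinuous_norm_le (Nat.cast_nonneg m) hf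
    refine ⟨fun i => g (Pi.single i 1), fun i => ?_, fun k => ?_⟩
    · refine (g.le_opNorm _).trans ?_
      rw [Pi.norm_single, norm_one, mul_one]
      exact hn'
    · have h2 := hg (e (Pi.single k 1))
      have e1 : f (e (Pi.single k 1)) = (Pi.single k 1 : Fin d → ℂ) j := by simp [f]
      have e2 : ((e (Pi.single k 1) : LinearMap.range A.mulVecLin) : Fin m → ℂ) =
          ∑ i, A i k • (Pi.single i 1 : Fin m → ℂ) := by
        funext i
        simp [e, Pi.single_apply, Finset.sum_apply]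
      rw [LinearMap.mkContinuous_apply, e1, e2, map_sum] at h2
      rw [Matrix.one_apply, ← Pi.single_apply, ← h2]
      refine Finset.sum_congr rfl fun i _ => ?_
      rw [map_smul, smul_eq_mul, mul_comm]
  choose b hb hbA using hB
  have h3 : (1 : ℂ) = ∑ I : Fin d → Fin m, (∏ k, b k (I k)) * (A.submatrix I id).det := by
    have e1 : (1 : Matrix (Fin d) (Fin d) ℂ) = fun j => ∑ i, b j i • A i := by
      funext j k
      rw [← hbA j k]
      simp [Finset.sum_apply]
    have e2 := (Matrix.detRowAlternating (n := Fin d) (R := ℂ)).toMultilinearMap.map_sum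
      fun j i => b j i • A i
    have e3 : (1 : ℂ) = Matrix.det (1 : Matrix (Fin d) (Fin d) ℂ) := Matrix.det_one.symm
    rw [e3, e1]
    refine e2.trans (Finset.sum_congr rfl fun I _ => ?_)
    rw [MultilinearMap.map_smul_univ, smul_eq_mul]
    rfl
  by_contra! hc
  have hm : (0 : ℝ) < ((m : ℝ) + 1) ^ (2 * d) := by positivity
  have h4 : ∀ I : Fin d → Fin m, ‖(∏ k, b k (I k)) * (A.submatrix I id).det‖ <
      1 / ((m : ℝ) + 1) ^ d := by
    intro I
    by_cases hI : Function.Injective I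
    · have h5 : ‖∏ k, b k (I k)‖ ≤ ((m : ℝ) + 1) ^ d := by
        rw [norm_prod]
        refine (Finset.prod_le_prod (fun _ _ => norm_nonneg _)
          fun k _ => (hb k (I k)).trans (by linarith : (m : ℝ) ≤ m + 1)).trans ?_
        simp
      have h6 := hc I hI
      rw [norm_mul, lt_div_iff₀ (by positivity)]
      refine lt_of_le_of_lt ?_ h6
      rw [two_mul, pow_add, mul_comm _ (((m : ℝ) + 1) ^ d), mul_assoc]
      gcongr
    · obtain ⟨i, j, hij, hne⟩ := Function.not_injective_iff.1 hI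
      rw [Matrix.det_zero_of_row_eq hne (by funext k; simp [hij]), mul_zero, norm_zero]
      positivity
  have h5 : (1 : ℝ) ≤ ∑ I : Fin d → Fin m, ‖(∏ k, b k (I k)) * (A.submatrix I id).det‖ := by
    refine le_trans ?_ (norm_sum_le _ _)
    rw [← h3, norm_one]
  rcases isEmpty_or_nonempty (Fin d → Fin m) with he | he
  · simp at h5
    linarith
  · have h6 := Finset.sum_lt_sum_of_nonempty Finset.univ_nonempty fun I _ => h4 I
    have h7 : ∑ _I : Fin d → Fin m, 1 / ((m : ℝ) + 1) ^ d ≤ 1 := by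
      rw [Finset.sum_const, Finset.card_univ, Fintype.card_fun, Fintype.card_fin, Fintype.card_fin,
        nsmul_eq_mul, mul_one_div, div_le_one (by positivity)]
      push_cast
      gcongr
      linarith
    linarith

end Pool.Agent.MP_8d06cc_nt.AB75
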