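import Pool.Agent.MP_8d06cc_nt.AB75.Null

/-! Adjoining one algebraic element to a family of complex points. -/

set_option autoImplicit false

namespace Pool.Agent.MP_8d06cc_nt.AB75

open Set Filter Topology Polynomial AB

noncomputable section

variable {E : Type} [Field E] [CharZero E]

/-- `R'` is generated over `R` by `u`, and `p` is a relation of least degree. -/
structure St (R R' : Subalgebra ℚ E) (hle : R ≤ R') (u : R') (p : R[X]) : Prop where
  gen : Function.Surjective (eval₂RingHom (Subalgebra.inclusion hle).toRingHom u)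
  p0 : p ≠ 0
  root : eval₂RingHom (Subalgebra.inclusion hle).toRingHom u p = 0
  min : ∀ q : R[X], q.degree < p.degree →
    eval₂RingHom (Subalgebra.inclusion hle).toRingHom u q = 0 → q = 0

variable {R R' : Subalgebra ℚ E} {hle : R ≤ R'} {u : R'} {p : R[X]}

theorem St.ker (h : St R R' hle u p) (y : R →+* ℂ) (hy : y p.leadingCoeff ≠ 0) (z : ℂ)
    (hz : eval₂RingHom y z p = 0) (q : R[X]) :
    eval₂RingHom (Subalgebra.inclusion hle).toRingHom u q = 0 → eval₂RingHom y z q = 0 := by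
  induction q using degree_lt_wf.induction with
  | _ q ih =>
  intro hq
  by_cases hq0 : q = 0
  · rw [hq0, map_zero]
  rcases lt_or_ge q.degree p.degree with hlt | hge
  · exact (hq0 (h.min q hlt hq)).elim
  have hc : p.leadingCoeff ≠ 0 := leadingCoeff_ne_zero.2 h.p0
  have hl : q.leadingCoeff ≠ 0 := leadingCoeff_ne_zero.2 hq0
  have hn : p.natDegree ≤ q.natDegree := natDegree_le_natDegree hge
  have h1 : (C p.leadingCoeff * q).degree = q.degree := degree_C_mul hc
  have h2 : (C q.leadingCoeff * (X ^ (q.natDegree - p.natDegree) * p)).degree = q.degree := by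
    rw [degree_C_mul hl, degree_mul, degree_X_pow, degree_eq_natDegree h.p0,
      degree_eq_natDegree hq0, ← Nat.cast_add, Nat.sub_add_cancel hn]
  have h3 := degree_sub_lt_left (h1.trans h2.symm) (mul_ne_zero (C_ne_zero.2 hc) hq0) (by
    simp only [leadingCoeff_mul, leadingCoeff_C, leadingCoeff_X_pow, one_mul, mul_comm])
  have h4 := ih _ (h1 ▸ h3) (by
    rw [map_sub, map_mul, map_mul, map_mul, hq, h.root, mul_zero, mul_zero, mul_zero, sub_zero])
  rw [map_sub, map_mul, map_mul, map_mul, hz, mul_zero, mul_zero, sub_zero, coe_eval₂RingHom,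
    eval₂_C] at h4
  exact (mul_eq_zero.1 h4).resolve_left hy

theorem St.lift (h : St R R' hle u p) (y : R →+* ℂ) (hy : y p.leadingCoeff ≠ 0) (z : ℂ)
    (hz : eval₂RingHom y z p = 0) : ∃ y' : R' →+* ℂ, ∀ q,
      y' (eval₂RingHom (Subalgebra.inclusion hle).toRingHom u q) = eval₂RingHom y z q :=
  ⟨RingHom.liftOfSurjective _ h.gen ⟨eval₂RingHom y z, fun q hq => h.ker y hy z hz q hq⟩,
    fun q => RingHom.liftOfSurjective_comp_apply _ h.gen _ q⟩

theorem hom_ev (y' : R' →+* ℂ) (y : R →+* ℂ) (hy : ∀ r, y' (Subalgebra.inclusion hle r) = y r)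
    (q : R[X]) : y' (eval₂RingHom (Subalgebra.inclusion hle).toRingHom u q) =
      eval₂RingHom y (y' u) q := by
  rw [coe_eval₂RingHom, coe_eval₂RingHom, hom_eval₂]
  exact congrArg (fun g => eval₂ g (y' u) q) (RingHom.ext hy)

theorem sm_ev {d : ℕ} {t : Fin d → E} (F : Fam t R) (q : R[X]) :
    ContDiffOn ℂ 2 (fun x : (Fin d → ℂ) × ℂ => eval₂RingHom (F.Y x.1) x.2 q) (F.V ×ˢ univ) := by
  simp only [coe_eval₂RingHom, eval₂_eq_sum_range]
  exact ContDiffOn.sum fun i _ => ((F.sm _).comp contDiffOn_fst fun x hx => hx.1).mul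
    (contDiffOn_snd.pow i)

theorem St.fam (h : St R R' hle u p) {d : ℕ} {t : Fin d → E} (F : Fam t R) {τ : Fin d → ℂ}
    (hτ : τ ∈ F.V) (y' : R' →+* ℂ) (hy : ∀ r, y' (Subalgebra.inclusion hle r) = F.Y τ r)
    (hc : F.Y τ p.leadingCoeff ≠ 0)
    (hd : y' (eval₂RingHom (Subalgebra.inclusion hle).toRingHom u (derivative p)) ≠ 0) :
    ∃ F1 : Fam t R', τ ∈ F1.V ∧ F1.V ⊆ F.V ∧ F1.Y τ = y' ∧
      ∀ σ ∈ F1.V, ∀ r : R, F1.Y σ (Subalgebra.inclusion hle r) = F.Y σ r := by
  classical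
  rw [hom_ev y' _ hy] at hd
  have hz : eval₂RingHom (F.Y τ) (y' u) p = 0 := by rw [← hom_ev y' _ hy, h.root, map_zero]
  set Φ : (Fin d → ℂ) × ℂ → ℂ := fun x => eval₂RingHom (F.Y x.1) x.2 p with hΦ
  have hm : F.V ×ˢ (univ : Set ℂ) ∈ 𝓝 (τ, y' u) :=
    (F.op.prod isOpen_univ).mem_nhds ⟨hτ, trivial⟩
  have cdf : ContDiffAt ℂ 2 Φ (τ, y' u) := (sm_ev F p).contDiffAt hm
  have if2 : (fderiv ℂ Φ (τ, y' u) ∘L .inr ℂ (Fin d → ℂ) ℂ).IsInvertible := by
    have h1 : HasFDerivAt (fun z => Φ (τ, z)) (fderiv ℂ Φ (τ, y' u) ∘L .inr ℂ (Fin d → ℂ) ℂ)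
        (y' u) := (cdf.differentiableAt (by norm_num)).hasFDerivAt.comp (y' u)
          (hasFDerivAt_prodMk_right τ (y' u))
    have h2 : HasDerivAt (fun z => Φ (τ, z)) (eval₂RingHom (F.Y τ) (y' u) (derivative p))
        (y' u) := by
      have h3 := (p.map (F.Y τ)).hasDerivAt (y' u)
      simp only [derivative_map, eval_map] at h3
      exact h3
    rw [h1.unique h2.hasFDerivAt]
    refine ContinuousLinearMap.IsInvertible.of_inverse
      (g := ContinuousLinearMap.toSpanSingleton ℂ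
        (eval₂RingHom (F.Y τ) (y' u) (derivative p))⁻¹) ?_ ?_
    · ext
      simpa using inv_mul_cancel₀ hd
    · ext
      simpa using mul_inv_cancel₀ hd
  set ψ := cdf.implicitFunction (by norm_num) if2 with hψ
  have hψ0 : ψ τ = y' u := cdf.implicitFunction_apply_self (by norm_num) if2
  have hev : ∀ᶠ x in 𝓝 τ, x ∈ F.V ∧ ContDiffAt ℂ 2 ψ x ∧ Φ (x, ψ x) = Φ (τ, y' u) ∧
      F.Y x p.leadingCoeff ≠ 0 :=
    (F.op.eventually_mem hτ).and (((cdf.contDiffAt_implicitFunction (by norm_num) if2).eventually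
      (by norm_num)).and ((cdf.eventually_apply_implicitFunction (by norm_num) if2).and
      (((F.sm _).continuousOn.continuousAt (F.op.mem_nhds hτ)).eventually_ne hc)))
  obtain ⟨U, hU, hUo, hτU⟩ := eventually_nhds_iff.1 hev
  have hex : ∀ x, ∃ y1 : R' →+* ℂ, x ∈ U → ∀ q,
      y1 (eval₂RingHom (Subalgebra.inclusion hle).toRingHom u q) =
        eval₂RingHom (F.Y x) (ψ x) q := by
    intro x
    by_cases hx : x ∈ U
    · obtain ⟨y1, h1⟩ := h.lift (F.Y x) (hU x hx).2.2.2 (ψ x) ((hU x hx).2.2.1.trans hz)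
      exact ⟨y1, fun _ => h1⟩
    · exact ⟨y', fun h1 => (hx h1).elim⟩
  choose Y hY using hex
  have hYC : ∀ σ ∈ U, ∀ r : R, Y σ (Subalgebra.inclusion hle r) = F.Y σ r := fun σ hσ r => by
    simpa using hY σ hσ (C r)
  refine ⟨⟨U, Y, hUo, fun i => hle (F.mem i), fun σ hσ i => ?_, fun r => ?_⟩, hτU,
    fun x hx => (hU x hx).1, RingHom.ext fun r => ?_, hYC⟩
  · exact (hYC σ hσ ⟨t i, F.mem i⟩).trans (F.crd σ (hU σ hσ).1 i)
  · obtain ⟨q, rfl⟩ := h.gen r
    refine ContDiffOn.congr ?_ fun x hx => hY x hx q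
    exact (sm_ev F q).comp (contDiffOn_id.prodMk fun x hx => (hU x hx).2.1.contDiffWithinAt)
      fun x hx => ⟨(hU x hx).1, trivial⟩
  · obtain ⟨q, rfl⟩ := h.gen r
    exact (hY τ hτU q).trans (by rw [hom_ev y' _ hy, hψ0])

theorem St.deg_pos (h : St R R' hle u p) : 0 < p.natDegree := by
  refine Nat.pos_of_ne_zero fun h0 => h.p0 ?_
  have h1 := h.root
  rw [eq_C_of_natDegree_eq_zero h0, coe_eval₂RingHom, eval₂_C] at h1
  rw [eq_C_of_natDegree_eq_zero h0, Subalgebra.inclusion_injective hle (h1.trans (map_zero _).symm),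
    map_zero]

theorem St.der_ne (h : St R R' hle u p) :
    eval₂RingHom (Subalgebra.inclusion hle).toRingHom u (derivative p) ≠ 0 := fun h0 =>
  h.deg_pos.ne' (derivative_eq_zero.1
    (h.min _ (degree_derivative_lt h.p0) h0))

theorem St.exists_root (h : St R R' hle u p) (y : R →+* ℂ) (hy : y p.leadingCoeff ≠ 0) :
    ∃ z, eval₂RingHom y z p = 0 := by
  obtain ⟨z, hz⟩ := Complex.exists_root (f := p.map y) (by
    rw [degree_map_eq_of_leadingCoeff_ne_zero _ hy]
    exact natDegree_pos_iff_degree_pos.1 h.deg_pos)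
  exact ⟨z, by rwa [IsRoot, eval_map] at hz⟩

theorem coe_ev (q : R[X]) :
    ((eval₂RingHom (Subalgebra.inclusion hle).toRingHom u q : R') : E) = aeval (u : E) q := by
  rw [coe_eval₂RingHom, aeval_def]
  exact hom_eval₂ q (Subalgebra.inclusion hle).toRingHom R'.val.toRingHom u

theorem gen_of (hR : R' ≤ Algebra.adjoin ℚ (insert (u : E) (R : Set E))) :
    Function.Surjective (eval₂RingHom (Subalgebra.inclusion hle).toRingHom u) := by
  intro r
  have h1 : Algebra.adjoin ℚ (insert (u : E) (R : Set E)) ≤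
      (Algebra.adjoin R {(u : E)}).restrictScalars ℚ := by
    refine Algebra.adjoin_le ?_
    rintro x (rfl | hx)
    · exact Algebra.self_mem_adjoin_singleton R _
    · exact Subalgebra.algebraMap_mem (Algebra.adjoin R {(u : E)}) (⟨x, hx⟩ : R)
  have h2 := h1 (hR r.2)
  rw [Subalgebra.mem_restrictScalars, Algebra.adjoin_singleton_eq_range_aeval] at h2
  obtain ⟨q, hq⟩ := h2
  exact ⟨q, Subtype.ext ((coe_ev q).trans hq)⟩

theorem exists_st (hR : R' ≤ Algebra.adjoin ℚ (insert (u : E) (R : Set E)))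
    (ha : IsAlgebraic R (u : E)) : ∃ p, St R R' hle u p := by
  obtain ⟨p, hp, hm⟩ := degree_lt_wf.has_min {q : R[X] | q ≠ 0 ∧ aeval (u : E) q = 0} ha
  refine ⟨p, gen_of hR, hp.1, Subtype.ext ((coe_ev p).trans hp.2), fun q hq h0 => ?_⟩
  by_contra hne
  exact hm q ⟨hne, (coe_ev q).symm.trans (congrArg Subtype.val h0)⟩ hq

theorem st_inv (hR : R' ≤ Algebra.adjoin ℚ (insert (u : E) (R : Set E))) (c : R)
    (hc : (c : E) * u = 1) : St R R' hle u (C c * X + C (-1)) := by
  have hc0 : c ≠ 0 := by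
    rintro rfl
    simp at hc
  refine ⟨gen_of hR, fun h => ?_, Subtype.ext ((coe_ev _).trans ?_), fun q hq h0 => ?_⟩
  · have h1 := degree_linear (b := (-1 : R)) hc0
    rw [h] at h1
    simp at h1
  · simp only [map_add, map_mul, aeval_C, aeval_X, map_neg, map_one, ZeroMemClass.coe_zero]
    exact add_neg_eq_zero.2 hc
  · rw [degree_linear hc0] at hq
    have h1 := eq_C_of_degree_le_zero (Nat.WithBot.lt_one_iff_le_zero.1 hq)
    rw [h1, coe_eval₂RingHom, eval₂_C] at h0
    rw [h1, Subalgebra.inclusion_injective hle (h0.trans (map_zero _).symm), map_zero]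

/-- families extend to the ring with one more inverse -/
theorem fam_inv (hR : R' ≤ Algebra.adjoin ℚ (insert (u : E) (R : Set E))) (c : R)
    (hc : (c : E) * u = 1) {d : ℕ} {t : Fin d → E} (F : Fam t R) {τ : Fin d → ℂ}
    (hτ : τ ∈ F.V) (y' : R' →+* ℂ) (hy : ∀ r, y' (Subalgebra.inclusion hle r) = F.Y τ r) :
    ∃ F1 : Fam t R', τ ∈ F1.V ∧ F1.Y τ = y' := by
  have hc0 : c ≠ 0 := by
    rintro rfl
    simp at hc
  have h1 : y' (Subalgebra.inclusion hle c) ≠ 0 := by
    have e : Subalgebra.inclusion hle c * u = 1 := Subtype.ext hc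
    have h2 := congrArg y' e
    rw [map_mul, map_one] at h2
    exact left_ne_zero_of_mul_eq_one h2
  obtain ⟨F1, h2, -, h3, -⟩ := (st_inv (hle := hle) hR c hc).fam F hτ y' hy
    (by rwa [leadingCoeff_linear hc0, ← hy]) (by simpa using h1)
  exact ⟨F1, h2, h3⟩

end

end Pool.Agent.MP_8d06cc_nt.AB75
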